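import Pool.Agent.Run7.h909.GT.Deg
import Pool.Agent.R942.FJ.Det

/-!
# `GL_2` of rings with a degree function

Owner helper909.
-/

set_option autoImplicit false

open Pool.Agent.Y110.FJ (ClosedE)

namespace Run7.h909.GT

variable {C : ∀ (G : Type) [Group G], Prop}

/-- homomorphisms with solvable kernel to groups in the class -/
theorem ext_solv (hC : ClosedE C) (hsol : ∀ (S : Type) [Group S], Group.IsSolvable S → C S)
    {G Q : Type} [Group G] [Group Q] (f : G →* Q) (hQ : C Q) (hk : Group.IsSolvable f.ker) : C G :=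
  Pool.Agent.Y529.FJ.t_ext C hC _ f.ker (hsol _ hk)
    (hC.base.of_injective _ _ (QuotientGroup.kerLift f) (QuotientGroup.kerLift_injective f) hQ)
    fun g _ => hsol _ (Pool.Agent.R942.FJ.solv_sup f.ker hk g)

theorem map_entry {B B' : Type} [CommRing B] [CommRing B'] (φ : B →+* B') (g : GL (Fin 2) B)
    (i j : Fin 2) : (Matrix.GeneralLinearGroup.map φ g) i j = φ (g i j) := rfl

theorem map_inj {B B' : Type} [CommRing B] [CommRing B'] (φ : B →+* B')
    (h : Function.Injective φ) :
    Function.Injective (Matrix.GeneralLinearGroup.map (n := Fin 2) φ) := by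
  intro g k e
  ext i j
  apply h
  rw [← map_entry, ← map_entry, e]

/-- ideals of square zero -/
theorem sqz (hC : ClosedE C) (hsol : ∀ (S : Type) [Group S], Group.IsSolvable S → C S)
    {B B' : Type} [CommRing B] [CommRing B'] (φ : B →+* B')
    (hφ : ∀ x y, φ x = 0 → φ y = 0 → x * y = 0) (h : C (GL (Fin 2) B')) : C (GL (Fin 2) B) := by
  refine ext_solv hC hsol (Matrix.GeneralLinearGroup.map φ) h (Group.isSolvable_of_comm ?_)
  rintro ⟨g, hg⟩ ⟨k, hk⟩
  apply Subtype.ext
  show g * k = k * g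
  have key : ∀ g : GL (Fin 2) B, Matrix.GeneralLinearGroup.map φ g = 1 → ∀ i j,
      φ (((g : Matrix (Fin 2) (Fin 2) B) - 1) i j) = 0 := by
    intro g hg i j
    rw [Matrix.sub_apply, map_sub]
    have h1 := map_entry φ g i j
    rw [hg] at h1
    rw [← h1]
    have h2 : ((1 : GL (Fin 2) B') : Matrix (Fin 2) (Fin 2) B') i j =
      φ ((1 : Matrix (Fin 2) (Fin 2) B) i j) := by
      rw [Units.val_one, Matrix.one_apply, Matrix.one_apply]
      split_ifs
      · rw [map_one]
      · rw [map_zero]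
    rw [← h2]
    exact sub_self _
  have h0 : ∀ g k : GL (Fin 2) B, Matrix.GeneralLinearGroup.map φ g = 1 →
      Matrix.GeneralLinearGroup.map φ k = 1 →
      ((g : Matrix (Fin 2) (Fin 2) B) - 1) * ((k : Matrix (Fin 2) (Fin 2) B) - 1) = 0 := by
    intro g k hg hk
    ext i j
    rw [Matrix.mul_apply, Matrix.zero_apply]
    exact Finset.sum_eq_zero fun l _ => hφ _ _ (key g hg i l) (key k hk l j)
  have h1 := h0 g k hg hk
  have h2 := h0 k g hk hg
  apply Units.ext
  rw [Units.val_mul, Units.val_mul]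
  have h3 : (g : Matrix (Fin 2) (Fin 2) B) * k - k * g =
      ((g : Matrix (Fin 2) (Fin 2) B) - 1) * ((k : Matrix (Fin 2) (Fin 2) B) - 1) -
      ((k : Matrix (Fin 2) (Fin 2) B) - 1) * ((g : Matrix (Fin 2) (Fin 2) B) - 1) := by
    noncomm_ring
  rw [h1, h2, sub_zero] at h3
  exact sub_eq_zero.1 h3

/-- powers of an ideal -/
theorem pow_mem (hC : ClosedE C) (hsol : ∀ (S : Type) [Group S], Group.IsSolvable S → C S)
    {A : Type} [CommRing A] (J : Ideal A) (h : C (GL (Fin 2) (A ⧸ J))) (k : ℕ) :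
    C (GL (Fin 2) (A ⧸ J ^ (k + 1))) := by
  induction k with
  | zero =>
    have e : J ^ (0 + 1) ≤ J := by rw [zero_add, pow_one]
    refine hC.base.of_injective _ _ (Matrix.GeneralLinearGroup.map (Ideal.Quotient.factor e))
      (map_inj _ ?_) h
    rw [injective_iff_map_eq_zero]
    intro x
    obtain ⟨a, rfl⟩ := Ideal.Quotient.mk_surjective x
    intro hx
    rw [Ideal.Quotient.factor_mk, Ideal.Quotient.eq_zero_iff_mem] at hx
    rw [Ideal.Quotient.eq_zero_iff_mem, zero_add, pow_one]
    exact hx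
  | succ k ih =>
    have e : J ^ (k + 1 + 1) ≤ J ^ (k + 1) := Ideal.pow_le_pow_right (Nat.le_succ _)
    refine sqz hC hsol (Ideal.Quotient.factor e) ?_ ih
    intro x y
    obtain ⟨a, rfl⟩ := Ideal.Quotient.mk_surjective x
    obtain ⟨b, rfl⟩ := Ideal.Quotient.mk_surjective y
    intro hx hy
    rw [Ideal.Quotient.factor_mk, Ideal.Quotient.eq_zero_iff_mem] at hx hy
    rw [← map_mul, Ideal.Quotient.eq_zero_iff_mem]
    have h1 := Ideal.mul_mem_mul hx hy
    rw [← pow_add] at h1
    exact Ideal.pow_le_pow_right (by omega) h1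

/-- **rings with a degree function** -/
theorem ring_mem (hC : ClosedE C) (hsol : ∀ (S : Type) [Group S], Group.IsSolvable S → C S)
    {A : Type} [CommRing A] [Nontrivial A] {deg : A → WithBot ℤ} (h : IsDeg deg)
    (h0 : ∀ x, x ≠ 0 → 0 ≤ deg x) (J : Ideal A) (hJ : C (GL (Fin 2) (A ⧸ J)))
    (hn : ∀ n : ℕ, ∃ k : ℕ, ∀ x ∈ J ^ k, deg x ≤ n → x = 0) : C (GL (Fin 2) A) := by
  refine gl2_rep hC h (MonoidHom.id (GL (Fin 2) A)) fun n => ?_
  obtain ⟨k, hk⟩ := hn n
  refine ⟨_, _, Matrix.GeneralLinearGroup.map (Ideal.Quotient.mk (J ^ (k + 1))),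
    pow_mem hC hsol J hJ k, fun g hg hg1 => ?_⟩
  have h1 : ∃ a b, (g⁻¹ : GL (Fin 2) A) a b ≠ 0 := by
    by_contra hcon
    push Not at hcon
    have h2 : ((g⁻¹ : GL (Fin 2) A) : Matrix (Fin 2) (Fin 2) A) = 0 := by
      ext i j
      exact hcon i j
    have h3 := Units.mul_inv g
    rw [h2, mul_zero] at h3
    exact one_ne_zero h3.symm
  obtain ⟨a, b, hab⟩ := h1
  have h2 : ∀ i j, deg (g i j) ≤ n := by
    intro i j
    refine le_trans ?_ (hg i j a b)
    exact le_add_of_nonneg_right (h0 _ hab)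
  apply Units.ext
  ext i j
  rw [Units.val_one]
  have h3 : ((g : Matrix (Fin 2) (Fin 2) A) - 1) i j = 0 := by
    refine hk _ ?_ ?_
    · have h4 : Ideal.Quotient.mk (J ^ (k + 1)) (((g : Matrix (Fin 2) (Fin 2) A) - 1) i j) = 0 := by
        rw [Matrix.sub_apply, map_sub]
        have h5 := map_entry (Ideal.Quotient.mk (J ^ (k + 1))) g i j
        rw [hg1] at h5
        rw [← h5]
        have h2 : ((1 : GL (Fin 2) (A ⧸ J ^ (k + 1))) : Matrix (Fin 2) (Fin 2) _) i j =
          Ideal.Quotient.mk (J ^ (k + 1)) ((1 : Matrix (Fin 2) (Fin 2) A) i j) := by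
          rw [Units.val_one, Matrix.one_apply, Matrix.one_apply]
          split_ifs
          · rw [map_one]
          · rw [map_zero]
        rw [← h2]
        exact sub_self _
      exact Ideal.pow_le_pow_right (Nat.le_succ k) (Ideal.Quotient.eq_zero_iff_mem.1 h4)
    · rw [Matrix.sub_apply]
      refine (h.sub _ _).trans (max_le (h2 i j) ?_)
      rw [Matrix.one_apply]
      split_ifs
      · rw [h.one]
        exact_mod_cast Nat.zero_le n
      · rw [(h.bot 0).2 rfl]
        exact bot_le
  rw [Matrix.sub_apply, sub_eq_zero] at h3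
  exact h3

/-! ### rings that embed in polynomial rings -/

open Polynomial in
theorem poly_isDeg {A B : Type} [CommRing A] [CommRing B] [IsDomain B] (φ : A →+* B[X])
    (hφ : Function.Injective φ) :
    IsDeg (fun x => ((φ x).degree.map (Nat.cast : ℕ → ℤ) : WithBot ℤ)) where
  bot x := by
    rw [WithBot.map_eq_bot_iff, Polynomial.degree_eq_bot, map_eq_zero_iff φ hφ]
  mul x y := by
    rw [map_mul, Polynomial.degree_mul]
    cases (φ x).degree <;> cases (φ y).degree <;> rfl
  add x y := by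
    rw [map_add]
    have hm : Monotone (WithBot.map (Nat.cast : ℕ → ℤ)) := WithBot.monotone_map_iff.2 Nat.mono_cast
    rw [← hm.map_max]
    exact hm (Polynomial.degree_add_le _ _)

open Polynomial in
/-- **rings that embed in polynomial rings** -/
theorem emb_mem (hC : ClosedE C) (hsol : ∀ (S : Type) [Group S], Group.IsSolvable S → C S)
    {A B A0 : Type} [CommRing A] [CommRing B] [IsDomain B] [CommRing A0] (φ : A →+* B[X])
    (hφ : Function.Injective φ) (ψ : A →+* A0) (hψ : ∀ x, ψ x = 0 ↔ (φ x).coeff 0 = 0)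
    (hA0 : C (GL (Fin 2) A0)) : C (GL (Fin 2) A) := by
  have hnt : Nontrivial A := ⟨0, 1, fun e => by
    have h1 := congrArg φ e
    rw [map_zero, map_one] at h1
    exact zero_ne_one h1⟩
  refine ring_mem hC hsol (poly_isDeg φ hφ) ?_ (RingHom.ker ψ) ?_ ?_
  · intro x hx
    have h1 : φ x ≠ 0 := fun e => hx ((map_eq_zero_iff φ hφ).1 e)
    rw [Polynomial.degree_eq_natDegree h1]
    show (0 : WithBot ℤ) ≤ (((φ x).natDegree : ℤ) : WithBot ℤ)
    exact_mod_cast Nat.zero_le _
  · exact hC.base.of_injective _ _ (Matrix.GeneralLinearGroup.map (RingHom.kerLift ψ))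
      (map_inj _ (RingHom.kerLift_injective ψ)) hA0
  · intro n
    refine ⟨n + 1, fun x hx hd => ?_⟩
    have h1 : RingHom.ker ψ ≤ Ideal.comap φ (Ideal.span {X}) := by
      intro y hy
      rw [Ideal.mem_comap, Ideal.mem_span_singleton, Polynomial.X_dvd_iff]
      exact (hψ y).1 hy
    have h2 : φ x ∈ (Ideal.span {(X : B[X])}) ^ (n + 1) :=
      Ideal.le_comap_pow φ (n + 1) (Ideal.pow_right_mono h1 (n + 1) hx)
    rw [Ideal.span_singleton_pow, Ideal.mem_span_singleton] at h2
    by_contra hx0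
    have h3 : φ x ≠ 0 := fun e => hx0 ((map_eq_zero_iff φ hφ).1 e)
    have h4 := Polynomial.degree_le_of_dvd h2 h3
    rw [Polynomial.degree_X_pow] at h4
    rw [Polynomial.degree_eq_natDegree h3] at hd h4
    have h5 : (((φ x).natDegree : ℤ) : WithBot ℤ) ≤ (n : WithBot ℤ) := hd
    have h6 : (φ x).natDegree ≤ n := by exact_mod_cast h5
    have h7 : n + 1 ≤ (φ x).natDegree := by exact_mod_cast h4
    omega

open Polynomial in
/-- polynomial rings in one variable -/
theorem poly_mem (hC : ClosedE C) (hsol : ∀ (S : Type) [Group S], Group.IsSolvable S → C S)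
    {B : Type} [CommRing B] [IsDomain B] (h : C (GL (Fin 2) B)) : C (GL (Fin 2) B[X]) :=
  emb_mem hC hsol (RingHom.id B[X]) Function.injective_id Polynomial.constantCoeff
    (fun x => by rw [Polynomial.constantCoeff_apply]; rfl) h

/-- homogenization -/
noncomputable def hmg (B σ : Type) [CommRing B] :
    MvPolynomial σ B →+* Polynomial (MvPolynomial σ B) :=
  MvPolynomial.eval₂Hom (Polynomial.C.comp MvPolynomial.C)
    (fun i => Polynomial.C (MvPolynomial.X i) * Polynomial.X)

theorem hmg_eval (B σ : Type) [CommRing B] (p : MvPolynomial σ B) : (hmg B σ p).eval 1 = p := by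
  have h1 : (Polynomial.evalRingHom (1 : MvPolynomial σ B)).comp (hmg B σ) = RingHom.id _ := by
    apply MvPolynomial.ringHom_ext
    · intro r
      simp [hmg]
    · intro i
      simp [hmg]
  exact congrArg (fun f => f p) h1

theorem hmg_coeff (B σ : Type) [CommRing B] (p : MvPolynomial σ B) :
    (hmg B σ p).coeff 0 = MvPolynomial.C (MvPolynomial.constantCoeff p) := by
  rw [Polynomial.coeff_zero_eq_eval_zero]
  have h1 : (Polynomial.evalRingHom (0 : MvPolynomial σ B)).comp (hmg B σ) =
      (MvPolynomial.C).comp MvPolynomial.constantCoeff := by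
    apply MvPolynomial.ringHom_ext
    · intro r
      simp [hmg]
    · intro i
      simp [hmg]
  exact congrArg (fun f => f p) h1

/-- **polynomial rings in any set of variables** -/
theorem mvpoly_mem (hC : ClosedE C) (hsol : ∀ (S : Type) [Group S], Group.IsSolvable S → C S)
    {B : Type} [CommRing B] [IsDomain B] (σ : Type) (h : C (GL (Fin 2) B)) :
    C (GL (Fin 2) (MvPolynomial σ B)) := by
  refine emb_mem hC hsol (hmg B σ) ?_ MvPolynomial.constantCoeff ?_ h
  · intro p q e
    rw [← hmg_eval B σ p, ← hmg_eval B σ q, e]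
  · intro p
    rw [hmg_coeff]
    exact (map_eq_zero_iff _ (MvPolynomial.C_injective σ B)).symm

end Run7.h909.GT
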