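import Pool.Agent.Run7.h909.GE.Amal
import Pool.Agent.Run7.h909.GT.Rng

/-!
# The modular group

Owner helper909.
-/

set_option autoImplicit false

open Pool.Agent.Y110.FJ (ClosedE)
open Pool.Agent.Y462.PA (Am)
open MatrixGroups UpperHalfPlane

namespace Run7.h909.GT

variable {C : ∀ (G : Type) [Group G], Prop}

/-- the element of order four -/
abbrev sS : SL(2, ℤ) := ModularGroup.S

/-- the element of order six -/
def uU : SL(2, ℤ) := ModularGroup.T * ModularGroup.S

theorem sS2 : sS * sS = -1 := by decide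

theorem uU3 : uU * uU * uU = -1 := by decide

theorem mem_A (g : SL(2, ℤ)) (hg : g ∈ Subgroup.zpowers sS) :
    g = 1 ∨ g = -1 ∨ g = sS ∨ g = -sS := by
  obtain ⟨k, rfl⟩ := hg
  have h4 : sS ^ (4 : ℤ) = 1 := by
    have : sS ^ (4 : ℤ) = (sS * sS) * (sS * sS) := by
      rw [show (4 : ℤ) = ((4 : ℕ) : ℤ) by rfl, zpow_natCast]
      simp [pow_succ, mul_assoc]
    rw [this, sS2]
    simp
  have h1 : sS ^ k = sS ^ (k % 4) := by
    conv_lhs => rw [← Int.emod_add_mul_ediv k 4, zpow_add, zpow_mul, h4, one_zpow, mul_one]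
  have h2 : 0 ≤ k % 4 := Int.emod_nonneg _ (by norm_num)
  have h3 : k % 4 < 4 := Int.emod_lt_of_pos _ (by norm_num)
  show sS ^ k = 1 ∨ sS ^ k = -1 ∨ sS ^ k = sS ∨ sS ^ k = -sS
  rw [h1]
  generalize k % 4 = r at h2 h3
  interval_cases r
  · left
    exact zpow_zero _
  · right; right; left
    exact zpow_one _
  · right; left
    rw [show (2 : ℤ) = ((2 : ℕ) : ℤ) by rfl, zpow_natCast, pow_two, sS2]
  · right; right; right
    rw [show (3 : ℤ) = ((3 : ℕ) : ℤ) by rfl, zpow_natCast, pow_succ, pow_two, sS2, neg_one_mul]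

theorem mem_B (g : SL(2, ℤ)) (hg : g ∈ Subgroup.zpowers uU) :
    g = 1 ∨ g = -1 ∨ g = uU ∨ g = -uU ∨ g = uU * uU ∨ g = -(uU * uU) := by
  obtain ⟨k, rfl⟩ := hg
  have h6 : uU ^ (6 : ℤ) = 1 := by
    have : uU ^ (6 : ℤ) = (uU * uU * uU) * (uU * uU * uU) := by
      rw [show (6 : ℤ) = ((6 : ℕ) : ℤ) by rfl, zpow_natCast]
      simp [pow_succ, mul_assoc]
    rw [this, uU3]
    simp
  have h1 : uU ^ k = uU ^ (k % 6) := by
    conv_lhs => rw [← Int.emod_add_mul_ediv k 6, zpow_add, zpow_mul, h6, one_zpow, mul_one]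
  have h2 : 0 ≤ k % 6 := Int.emod_nonneg _ (by norm_num)
  have h3 : k % 6 < 6 := Int.emod_lt_of_pos _ (by norm_num)
  show uU ^ k = 1 ∨ uU ^ k = -1 ∨ uU ^ k = uU ∨ uU ^ k = -uU ∨ uU ^ k = uU * uU ∨
    uU ^ k = -(uU * uU)
  rw [h1]
  generalize k % 6 = r at h2 h3
  have e3 : uU ^ 3 = -1 := by rw [pow_succ, pow_two, uU3]
  interval_cases r
  · left
    exact zpow_zero _
  · right; right; left
    exact zpow_one _
  · right; right; right; right; left
    rw [show (2 : ℤ) = ((2 : ℕ) : ℤ) by rfl, zpow_natCast, pow_two]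
  · right; left
    rw [show (3 : ℤ) = ((3 : ℕ) : ℤ) by rfl, zpow_natCast, e3]
  · right; right; right; left
    rw [show (4 : ℤ) = ((4 : ℕ) : ℤ) by rfl, zpow_natCast, pow_succ, e3, neg_one_mul]
  · right; right; right; right; right
    rw [show (5 : ℤ) = ((5 : ℕ) : ℤ) by rfl, zpow_natCast, show 5 = 3 + 2 by rfl, pow_add, e3,
      neg_one_mul, pow_two]

theorem neg_mem_A : (-1 : SL(2, ℤ)) ∈ Subgroup.zpowers sS :=
  ⟨2, by
    show sS ^ (2 : ℤ) = -1
    rw [show (2 : ℤ) = ((2 : ℕ) : ℤ) by rfl, zpow_natCast, pow_two, sS2]⟩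

theorem neg_mem_B : (-1 : SL(2, ℤ)) ∈ Subgroup.zpowers uU :=
  ⟨3, by
    show uU ^ (3 : ℤ) = -1
    rw [show (3 : ℤ) = ((3 : ℕ) : ℤ) by rfl, zpow_natCast, pow_succ, pow_two, uU3]⟩

/-- the centre -/
abbrev zZ : Subgroup SL(2, ℤ) := Subgroup.zpowers (-1)

theorem zZ_le_A : zZ ≤ Subgroup.zpowers sS := by
  rw [Subgroup.zpowers_le]
  exact neg_mem_A

theorem zZ_le_B : zZ ≤ Subgroup.zpowers uU := by
  rw [Subgroup.zpowers_le]
  exact neg_mem_B

/-- reduction modulo three -/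
def red : SL(2, ℤ) →* SL(2, ZMod 3) := Matrix.SpecialLinearGroup.map (Int.castRingHom (ZMod 3))

theorem red_entry (g : SL(2, ℤ)) (i j : Fin 2) : (red g) i j = ((g i j : ℤ) : ZMod 3) := rfl

theorem red_A (g : SL(2, ℤ)) (hg : g ∈ Subgroup.zpowers sS) (h : red g = 1) : g = 1 := by
  have h1 : ((g 0 0 : ℤ) : ZMod 3) = 1 := by
    rw [← red_entry, h]
    rfl
  rcases mem_A g hg with rfl | rfl | rfl | rfl
  · rfl
  · exact absurd h1 (by decide)
  · exact absurd h1 (by decide)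
  · exact absurd h1 (by decide)

theorem red_B (g : SL(2, ℤ)) (hg : g ∈ Subgroup.zpowers uU) (h : red g = 1) : g = 1 := by
  have h1 : ((g 0 0 : ℤ) : ZMod 3) = 1 := by
    rw [← red_entry, h]
    rfl
  have h2 : ((g 1 0 : ℤ) : ZMod 3) = 0 := by
    rw [← red_entry, h]
    rfl
  rcases mem_B g hg with rfl | rfl | rfl | rfl | rfl | rfl
  · rfl
  · exact absurd h1 (by decide)
  · exact absurd h2 (by decide)
  · exact absurd h2 (by decide)
  · exact absurd h2 (by decide)
  · exact absurd h2 (by decide)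

/-- the amalgamated product -/
abbrev AmZ : Type := Am (Subgroup.inclusion zZ_le_A) (Subgroup.inclusion zZ_le_B)

theorem AmZ_mem (hC : ClosedE C) : C AmZ := by
  refine GE.am_mem _ _ hC (P := SL(2, ZMod 3))
    (Pool.Agent.Y430.SS.of_finite hC.base _ inferInstance)
    (red.comp (Subgroup.subtype _)) (red.comp (Subgroup.subtype _)) (fun c => rfl) ?_ ?_
  · rw [injective_iff_map_eq_one]
    rintro ⟨g, hg⟩ h
    exact Subtype.ext (red_A g hg h)
  · rw [injective_iff_map_eq_one]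
    rintro ⟨g, hg⟩ h
    exact Subtype.ext (red_B g hg h)

/-- the homomorphism to the modular group -/
noncomputable def PhiZ : AmZ →* SL(2, ℤ) :=
  Am.lift _ _ (Subgroup.subtype _) (Subgroup.subtype _) (fun _ => rfl)

theorem S_re (z : ℍ) : (sS • z).re = - z.re / Complex.normSq z := by
  rw [modular_S_smul]
  show ((-(z : ℂ))⁻¹).re = _
  rw [Complex.inv_re, Complex.neg_re, Complex.normSq_neg]
  rfl

theorem U_re (z : ℍ) : (uU • z).re = 1 - z.re / Complex.normSq z := by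
  rw [uU, mul_smul, modular_T_smul, UpperHalfPlane.vadd_re, S_re]
  ring

theorem nsq_pos (z : ℍ) : 0 < Complex.normSq (z : ℂ) := Complex.normSq_pos.2 z.ne_zero

theorem UU_re (z : ℍ) (hz : z.re ≤ 0) : 0 < ((uU * uU) • z).re := by
  have h0 : uU * uU = sS * ModularGroup.T⁻¹ := by decide
  have h1 : ((uU * uU) • z) = (sS * ModularGroup.T⁻¹) • z := by rw [h0]
  rw [h1, mul_smul, S_re]
  have h2 : (ModularGroup.T⁻¹ • z).re = z.re - 1 := by
    have h3 := UpperHalfPlane.modular_T_zpow_smul z (-1)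
    rw [zpow_neg_one] at h3
    rw [h3, UpperHalfPlane.vadd_re]
    push_cast
    ring
  rw [h2]
  apply div_pos _ (nsq_pos _)
  linarith

theorem PhiZ_inj : Function.Injective PhiZ := by
  have hl : ∀ a, PhiZ (Am.inl _ _ a) = (a : SL(2, ℤ)) := fun a => Am.lift_inl _ _ _ _ _ _
  have hr : ∀ b, PhiZ (Am.inr _ _ b) = (b : SL(2, ℤ)) := fun a => Am.lift_inr _ _ _ _ _ _
  have hneg : ∀ (g : SL(2, ℤ)) (z : ℍ), (-g) • z = g • z := fun g z => ModularGroup.SL_neg_smul g z
  have hSI : sS • UpperHalfPlane.I = UpperHalfPlane.I := by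
    rw [modular_S_smul]
    ext1
    simp
  refine GE.am_inj (Ω := ℍ) PhiZ {UpperHalfPlane.I} {z | 0 < z.re} {z | z.re ≤ 0} ?_ ?_ ?_ ?_ ?_ ?_
  · intro a ha
    rw [hl] at ha
    exact Subtype.ext ha
  · rintro ⟨a, ha⟩ v hv
    rw [Set.mem_singleton_iff] at hv
    rw [hl, hv, Set.mem_singleton_iff]
    rcases mem_A a ha with rfl | rfl | rfl | rfl
    · exact one_smul _ _
    · show (-1 : SL(2, ℤ)) • _ = _
      rw [hneg, one_smul]
    · exact hSI
    · show (-sS : SL(2, ℤ)) • _ = _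
      rw [hneg, hSI]
  · intro v hv h
    rw [Set.mem_singleton_iff] at hv
    have h1 : 0 < v.re := h
    rw [hv, UpperHalfPlane.I_re] at h1
    exact lt_irrefl _ h1
  · rintro ⟨b, hb⟩ hb2 v hv
    have hv' : v.re ≤ 0 := hv
    rw [hr]
    show 0 < (b • v).re
    have hz : b ∉ zZ := fun h => hb2 ⟨⟨b, h⟩, rfl⟩
    have hU : 0 < (uU • v).re := by
      rw [U_re]
      have h1 : v.re / Complex.normSq v ≤ 0 := div_nonpos_of_nonpos_of_nonneg hv' (nsq_pos v).le
      linarith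
    rcases mem_B b hb with rfl | rfl | rfl | rfl | rfl | rfl
    · exact absurd (one_mem _) hz
    · exact absurd (Subgroup.mem_zpowers _) hz
    · exact hU
    · rw [hneg]
      exact hU
    · exact UU_re v hv'
    · rw [hneg]
      exact UU_re v hv'
  · rintro ⟨a, ha⟩ ha2 v hv
    have hv' : 0 < v.re := hv
    rw [hl]
    show (a • v).re ≤ 0
    have hz : a ∉ zZ := fun h => ha2 ⟨⟨a, h⟩, rfl⟩
    have hS : (sS • v).re ≤ 0 := by
      rw [S_re, neg_div]
      have h1 := div_pos hv' (nsq_pos v)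
      linarith
    rcases mem_A a ha with rfl | rfl | rfl | rfl
    · exact absurd (one_mem _) hz
    · exact absurd (Subgroup.mem_zpowers _) hz
    · exact hS
    · rw [hneg]
      exact hS
  · exact ⟨_, rfl, UpperHalfPlane.I_re.le⟩

theorem PhiZ_surj : Function.Surjective PhiZ := by
  rw [← MonoidHom.range_eq_top, eq_top_iff, ← SpecialLinearGroup.SL2Z_generators,
    Subgroup.closure_le]
  have hl : ∀ a, PhiZ (Am.inl _ _ a) = (a : SL(2, ℤ)) := fun a => Am.lift_inl _ _ _ _ _ _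
  have hr : ∀ b, PhiZ (Am.inr _ _ b) = (b : SL(2, ℤ)) := fun a => Am.lift_inr _ _ _ _ _ _
  have hS : sS ∈ PhiZ.range := ⟨Am.inl _ _ ⟨sS, Subgroup.mem_zpowers _⟩, hl _⟩
  have hU : uU ∈ PhiZ.range := ⟨Am.inr _ _ ⟨uU, Subgroup.mem_zpowers _⟩, hr _⟩
  intro x hx
  rcases hx with rfl | hx
  · exact hS
  · rw [Set.mem_singleton_iff] at hx
    have h1 : x = uU * sS⁻¹ := by
      rw [hx, uU, mul_inv_cancel_right]
    rw [h1]
    exact mul_mem hU (inv_mem hS)

theorem SL2Z_mem (hC : ClosedE C) : C SL(2, ℤ) :=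
  hC.base.of_injective _ _ (MulEquiv.ofBijective PhiZ ⟨PhiZ_inj, PhiZ_surj⟩).symm.toMonoidHom
    (MulEquiv.ofBijective PhiZ ⟨PhiZ_inj, PhiZ_surj⟩).symm.injective (AmZ_mem hC)

theorem GL2Z_mem (hC : ClosedE C) : C (GL (Fin 2) ℤ) := by
  have hr : (Matrix.SpecialLinearGroup.toGL (n := Fin 2) (R := ℤ)).range =
      (Matrix.GeneralLinearGroup.det (n := Fin 2) (R := ℤ)).ker := by
    ext g
    constructor
    · rintro ⟨x, rfl⟩
      rw [MonoidHom.mem_ker]
      ext
      simp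
    · intro hg
      rw [MonoidHom.mem_ker] at hg
      refine ⟨⟨(g : Matrix (Fin 2) (Fin 2) ℤ), ?_⟩, ?_⟩
      · exact congrArg (fun u : ℤˣ => (u : ℤ)) hg
      · ext i j
        rfl
  have hfi : (Matrix.GeneralLinearGroup.det (n := Fin 2) (R := ℤ)).ker.FiniteIndex := by
    have : Finite (Matrix.GeneralLinearGroup.det (n := Fin 2) (R := ℤ)).range :=
      Finite.of_injective _ (Subgroup.subtype_injective _)
    exact Subgroup.finiteIndex_ker _
  refine hC.base.finiteIndex _ _ hfi ?_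
  rw [← hr]
  have hinj : Function.Injective (Matrix.SpecialLinearGroup.toGL (n := Fin 2) (R := ℤ)) := by
    intro x y e
    ext i j
    have := congrArg (fun g : GL (Fin 2) ℤ => g i j) e
    exact this
  exact hC.base.of_injective _ _ (MonoidHom.ofInjective hinj).symm.toMonoidHom
    (MonoidHom.ofInjective hinj).symm.injective (SL2Z_mem hC)

end Run7.h909.GT
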