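import Pool.Agent.Run7.h909.GT.Rng

/-!
# Unit groups of rings of two by two matrices

Owner helper909.
-/

set_option autoImplicit false

open Pool.Agent.Y110.FJ (ClosedE)

namespace Run7.h909.GT

variable {C : ∀ (G : Type) [Group G], Prop}

/-- ideals of square zero -/
theorem sqz' (hC : ClosedE C) (hsol : ∀ (S : Type) [Group S], Group.IsSolvable S → C S)
    {B B' : Type} [Ring B] [Ring B'] (φ : B →+* B')
    (hφ : ∀ x y, φ x = 0 → φ y = 0 → x * y = 0) (h : C B'ˣ) : C Bˣ := by
  refine ext_solv hC hsol (Units.map φ.toMonoidHom) h (Group.isSolvable_of_comm ?_)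
  rintro ⟨g, hg⟩ ⟨k, hk⟩
  apply Subtype.ext
  show g * k = k * g
  have key : ∀ g : Bˣ, Units.map φ.toMonoidHom g = 1 → φ ((g : B) - 1) = 0 := by
    intro g hg
    rw [map_sub, map_one]
    have h1 : φ (g : B) = 1 := congrArg Units.val hg
    rw [h1, sub_self]
  have h0 : ∀ g k : Bˣ, Units.map φ.toMonoidHom g = 1 → Units.map φ.toMonoidHom k = 1 →
      ((g : B) - 1) * ((k : B) - 1) = 0 := fun g k hg hk => hφ _ _ (key g hg) (key k hk)
  have h1 := h0 g k hg hk
  have h2 := h0 k g hk hg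
  apply Units.ext
  rw [Units.val_mul, Units.val_mul]
  have h3 : (g : B) * k - k * g =
      ((g : B) - 1) * ((k : B) - 1) - ((k : B) - 1) * ((g : B) - 1) := by
    noncomm_ring
  rw [h1, h2, sub_zero] at h3
  exact sub_eq_zero.1 h3

/-- powers of an ideal -/
theorem pow_mem' (hC : ClosedE C) (hsol : ∀ (S : Type) [Group S], Group.IsSolvable S → C S)
    {A : Type} [Ring A] (J : Ideal A) [J.IsTwoSided] (h : C (A ⧸ J)ˣ) (k : ℕ) :
    C (A ⧸ J ^ (k + 1))ˣ := by
  induction k with
  | zero =>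
    have e : J ^ (0 + 1) ≤ J := by rw [zero_add, Submodule.pow_one]
    refine hC.base.of_injective _ _ (Units.map (Ideal.Quotient.factor e).toMonoidHom) ?_ h
    refine Units.map_injective ?_
    show Function.Injective (Ideal.Quotient.factor e)
    rw [injective_iff_map_eq_zero]
    intro x
    obtain ⟨a, rfl⟩ := Ideal.Quotient.mk_surjective x
    intro hx
    rw [Ideal.Quotient.factor_mk, Ideal.Quotient.eq_zero_iff_mem] at hx
    rw [Ideal.Quotient.eq_zero_iff_mem, zero_add, Submodule.pow_one]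
    exact hx
  | succ k ih =>
    have e : J ^ (k + 1 + 1) ≤ J ^ (k + 1) := Ideal.pow_le_pow_right (Nat.le_succ _)
    refine sqz' hC hsol (Ideal.Quotient.factor e) ?_ ih
    intro x y
    obtain ⟨a, rfl⟩ := Ideal.Quotient.mk_surjective x
    obtain ⟨b, rfl⟩ := Ideal.Quotient.mk_surjective y
    intro hx hy
    rw [Ideal.Quotient.factor_mk, Ideal.Quotient.eq_zero_iff_mem] at hx hy
    rw [← map_mul, Ideal.Quotient.eq_zero_iff_mem]
    have h1 := Ideal.mul_mem_mul hx hy
    rw [← Ideal.IsTwoSided.pow_add] at h1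
    exact Ideal.pow_le_pow_right (by omega) h1

/-- **unit groups of rings of two by two matrices** -/
theorem order_mem (hC : ClosedE C) (hsol : ∀ (S : Type) [Group S], Group.IsSolvable S → C S)
    {R L : Type} [CommRing R] [Nontrivial R] [Ring L] {deg : R → WithBot ℤ} (h : IsDeg deg)
    (θ : L →+* Matrix (Fin 2) (Fin 2) R) (h0 : ∀ x, x ≠ 0 → ∃ i j, 0 ≤ deg (θ x i j))
    (J : Ideal L) [J.IsTwoSided] (hJ : C (L ⧸ J)ˣ)
    (hn : ∀ n : ℕ, ∃ k : ℕ, ∀ x ∈ J ^ k, (∀ i j, deg (θ x i j) ≤ n) → x = 0) : C Lˣ := by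
  by_cases hL : Subsingleton L
  · have : Subsingleton Lˣ := inferInstance
    exact Pool.Agent.Y430.SS.of_finite hC.base _ inferInstance
  have hL' : Nontrivial L := not_subsingleton_iff_nontrivial.1 hL
  refine gl2_rep hC h (Units.map θ.toMonoidHom : Lˣ →* GL (Fin 2) R) fun n => ?_
  obtain ⟨k, hk⟩ := hn n
  refine ⟨_, _, Units.map (Ideal.Quotient.mk (J ^ (k + 1))).toMonoidHom,
    pow_mem' hC hsol J hJ k, fun g hg hg1 => ?_⟩
  obtain ⟨a, b, hab⟩ := h0 ((g⁻¹ : Lˣ) : L) (Units.ne_zero _)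
  have h2 : ∀ i j, deg (θ (g : L) i j) ≤ n := by
    intro i j
    refine le_trans ?_ (hg i j a b)
    exact le_add_of_nonneg_right hab
  apply Units.ext
  rw [Units.val_one]
  have h3 : (g : L) - 1 = 0 := by
    refine hk _ ?_ ?_
    · have h4 : Ideal.Quotient.mk (J ^ (k + 1)) ((g : L) - 1) = 0 := by
        rw [map_sub, map_one, sub_eq_zero]
        exact congrArg Units.val hg1
      exact Ideal.pow_le_pow_right (Nat.le_succ k) (Ideal.Quotient.eq_zero_iff_mem.1 h4)
    · intro i j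
      rw [map_sub, map_one, Matrix.sub_apply]
      refine (h.sub _ _).trans (max_le (h2 i j) ?_)
      rw [Matrix.one_apply]
      split_ifs
      · rw [h.one]
        exact_mod_cast Nat.zero_le n
      · rw [(h.bot 0).2 rfl]
        exact bot_le
  rwa [sub_eq_zero] at h3

end Run7.h909.GT
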