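import Pool.Agent.N24.TR.Tree

/-!
# The tree of an integral metric which satisfies the four point condition

Owner helper909.
-/

set_option autoImplicit false

open SimpleGraph

namespace Run7.h909.GT

/-- integral pseudometrics with the four point condition and with integral Gromov products -/
structure ZH {S : Type} (d : S → S → ℤ) : Prop where
  self : ∀ x, d x x = 0
  symm : ∀ x y, d x y = d y x
  four : ∀ x y z w, d x y + d z w ≤ max (d x z + d y w) (d x w + d y z)
  even : ∀ x y z, (d x y + d y z + d x z) % 2 = 0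

namespace ZH

variable {S : Type} {d : S → S → ℤ}

theorem nonneg (h : ZH d) (x y : S) : 0 ≤ d x y := by
  have h1 := h.four x x y y
  rw [h.self, h.self] at h1
  omega

theorem tri (h : ZH d) (x y z : S) : d x z ≤ d x y + d y z := by
  have h1 := h.four x z y y
  rw [h.self, h.symm z y] at h1
  omega

end ZH

section pt

variable {S : Type} (d : S → S → ℤ)

/-- the point on the segment from `x` to `y` at distance `n` from `x`: its distances -/
def pt (x y : S) (n : ℤ) : S → ℤ := fun s => max (d s x - n) (d s y - d x y + n)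

/-- the points of the tree -/
def Vt : Type := {f : S → ℤ // ∃ x y n, 0 ≤ n ∧ n ≤ d x y ∧ f = pt d x y n}

variable {d}

theorem pt_eq (h : ZH d) (o z z' : S) (m : ℤ) (h1 : 2 * m ≤ d o z + d o z' - d z z') :
    pt d o z m = pt d o z' m := by
  funext s
  have h2 := h.four o z z' s
  have h3 := h.four o z' z s
  have h4 := h.four o s z z'
  have e1 := h.symm z' z
  have e2 := h.symm s z
  have e3 := h.symm s z'
  have e4 := h.symm s o
  unfold pt
  omega

/-- every point lies on a segment which starts in `o` -/
theorem exists_pt (h : ZH d) (o : S) (f : Vt d) :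
    ∃ z, 0 ≤ f.1 o ∧ f.1 o ≤ d o z ∧ f.1 = pt d o z (f.1 o) := by
  obtain ⟨f, x, y, n, hn, hn', rfl⟩ := f
  have h0 := h.four o o x y
  have e5 := h.self o
  by_cases hc : d o y - d x y + n ≤ d o x - n
  · have e0 : pt d x y n o = d o x - n := by
      unfold pt
      omega
    refine ⟨x, ?_, ?_, ?_⟩
    · show 0 ≤ pt d x y n o
      omega
    · show pt d x y n o ≤ _
      omega
    · show pt d x y n = pt d o x (pt d x y n o)
      rw [e0]
      funext s
      have h2 := h.four o x y s
      have h3 := h.four o y x s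
      have h4 := h.four o s x y
      have e1 := h.symm y x
      have e2 := h.symm s x
      have e3 := h.symm s y
      have e4 := h.symm s o
      unfold pt
      omega
  · have e0 : pt d x y n o = d o y - d x y + n := by
      unfold pt
      omega
    refine ⟨y, ?_, ?_, ?_⟩
    · show 0 ≤ pt d x y n o
      omega
    · show pt d x y n o ≤ _
      omega
    · show pt d x y n = pt d o y (pt d x y n o)
      rw [e0]
      funext s
      have h2 := h.four o x y s
      have h3 := h.four o y x s
      have h4 := h.four o s x y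
      have e1 := h.symm y x
      have e2 := h.symm s x
      have e3 := h.symm s y
      have e4 := h.symm s o
      unfold pt
      omega

theorem le_add (h : ZH d) (f : Vt d) (s t : S) : d s t ≤ f.1 s + f.1 t := by
  obtain ⟨f, x, y, n, hn, hn', rfl⟩ := f
  have h1 := h.four s t x y
  show _ ≤ pt d x y n s + pt d x y n t
  unfold pt
  omega

/-- the graph -/
def TG (d : S → S → ℤ) [Nonempty S] : SimpleGraph (Vt d) where
  Adj f f' := ∀ s, f.1 s - f'.1 s = 1 ∨ f'.1 s - f.1 s = 1
  symm := ⟨fun f f' hf s => (hf s).symm⟩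
  loopless := ⟨fun f hf => by
    have h1 := hf (Classical.arbitrary S)
    omega⟩

/-- the point on the same segment which is closer to `o` -/
theorem closer (h : ZH d) (o z : S) (m : ℤ) (s : S) :
    pt d o z m s - pt d o z (m - 1) s = 1 ∨ pt d o z (m - 1) s - pt d o z m s = 1 := by
  have h1 := h.even o z s
  have e2 := h.symm s z
  have e4 := h.symm s o
  unfold pt
  omega

/-- the parent is unique -/
theorem unique (h : ZH d) (o z : S) (m : ℤ) (f f' : Vt d)
    (hf : f.1 = pt d o z m) (hm0 : 0 ≤ m) (hm : m ≤ d o z)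
    (hadj : ∀ s, f.1 s - f'.1 s = 1 ∨ f'.1 s - f.1 s = 1) (hlt : f'.1 o < f.1 o) :
    f'.1 = pt d o z (m - 1) := by
  have e0 : f.1 o = m := by
    rw [hf]
    have := h.self o
    unfold pt
    omega
  have e1 : f'.1 o = m - 1 := by
    have := hadj o
    omega
  obtain ⟨z', h0, h1, h2⟩ := exists_pt h o f'
  rw [e1] at h0 h1 h2
  rw [h2]
  refine (pt_eq h o z z' (m - 1) ?_).symm
  have h3 := hadj z
  rw [h2, hf] at h3
  have e3 := h.self z
  have e4 := h.symm z o
  unfold pt at h3
  omega

/-- **the tree** -/
theorem TG_tree (h : ZH d) [Nonempty S] : (TG d).IsTree := by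
  classical
  obtain ⟨o⟩ : Nonempty S := inferInstance
  choose z hz0 hz1 hz2 using exists_pt h o
  -- the parent
  have hpar : ∀ f : Vt d, 0 < f.1 o → ∃ f' : Vt d, f'.1 = pt d o (z f) (f.1 o - 1) := fun f hf =>
    ⟨⟨pt d o (z f) (f.1 o - 1), o, z f, f.1 o - 1, by omega, by have := hz1 f; omega, rfl⟩, rfl⟩
  choose par hpar using hpar
  have hparo : ∀ f : Vt d, ∀ hf, (par f hf).1 o = f.1 o - 1 := by
    intro f hf
    rw [hpar]
    have e1 := h.self o
    have e2 := hz1 f
    unfold pt
    omega
  have hparadj : ∀ f : Vt d, ∀ hf, (TG d).Adj f (par f hf) := by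
    intro f hf s
    rw [hpar]
    have h1 := closer h o (z f) (f.1 o) s
    rw [← hz2 f] at h1
    exact h1
  have huniq : ∀ f f' : Vt d, (TG d).Adj f f' → f'.1 o < f.1 o → ∀ hf, f' = par f hf := by
    intro f f' hadj hlt hf
    apply Subtype.ext
    rw [hpar]
    exact unique h o (z f) (f.1 o) f f' (hz2 f) hf.le (hz1 f) hadj hlt
  have hroot : ∀ f : Vt d, f.1 o = 0 → f.1 = fun s => d s o := by
    intro f hf
    rw [hz2 f, hf]
    funext s
    have h1 := h.tri s o (z f)
    unfold pt
    omega
  refine ⟨?_, ?_⟩
  · have hne : Nonempty (Vt d) := ⟨⟨pt d o o 0, o, o, 0, le_rfl, (h.self o).ge, rfl⟩⟩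
    obtain ⟨r, hr⟩ : ∃ r : Vt d, r.1 = fun s => d s o := by
      refine ⟨⟨pt d o o 0, o, o, 0, le_rfl, (h.self o).ge, rfl⟩, ?_⟩
      funext s
      show pt d o o 0 s = _
      have := h.self o
      unfold pt
      omega
    have key : ∀ (n : ℕ) (f : Vt d), f.1 o = n → (TG d).Reachable f r := by
      intro n
      induction n with
      | zero =>
        intro f hf
        have : f = r := Subtype.ext (by rw [hroot f (by exact_mod_cast hf), hr])
        rw [this]
      | succ n ih =>
        intro f hf
        have hf0 : 0 < f.1 o := by rw [hf]; positivity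
        exact (hparadj f hf0).reachable.trans (ih _ (by rw [hparo, hf]; push_cast; ring))
    have key' : ∀ f : Vt d, (TG d).Reachable f r := fun f => by
      obtain ⟨n, hn⟩ := Int.eq_ofNat_of_zero_le (hz0 f)
      exact key n f hn
    exact (SimpleGraph.connected_iff _).2 ⟨fun u v => (key' u).trans (key' v).symm, hne⟩
  · intro v c hcyc
    obtain ⟨u, hu, hmax⟩ := c.support.toFinset.exists_max_image (fun f : Vt d => f.1 o)
      ⟨v, List.mem_toFinset.2 c.start_mem_support⟩
    have hu' : u ∈ c.support := List.mem_toFinset.1 hu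
    have hc' := hcyc.rotate hu'
    have hmax' : ∀ w ∈ (c.rotate u hu').support, w.1 o ≤ u.1 o := fun w hw =>
      hmax w (List.mem_toFinset.2 ((SimpleGraph.Walk.mem_support_rotate_iff c u hu').1 hw))
    have hnil := hc'.not_nil
    have a1 := (c.rotate u hu').adj_snd hnil
    have a2 := (c.rotate u hu').adj_penultimate hnil
    have b1 := hmax' _ ((c.rotate u hu').getVert_mem_support 1)
    have b2 := hmax' _ ((c.rotate u hu').getVert_mem_support ((c.rotate u hu').length - 1))
    have c1 : (c.rotate u hu').snd.1 o < u.1 o := by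
      have h1 := a1 o
      change (c.rotate u hu').snd.1 o ≤ _ at b1
      omega
    have c2 : (c.rotate u hu').penultimate.1 o < u.1 o := by
      have h1 := a2.symm o
      change (c.rotate u hu').penultimate.1 o ≤ _ at b2
      omega
    have hu0 : 0 < u.1 o := lt_of_le_of_lt (hz0 _) c1
    exact hc'.snd_ne_penultimate ((huniq u _ a1 c1 hu0).trans (huniq u _ a2.symm c2 hu0).symm)

end pt

section act

variable {G S : Type} [Group G] [MulAction G S] {d : S → S → ℤ}

/-- the action on the points -/
def actV (hd : ∀ (g : G) (x y : S), d (g • x) (g • y) = d x y) : MulAction G (Vt d) where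
  smul g f := ⟨fun s => f.1 (g⁻¹ • s), by
    obtain ⟨f, x, y, n, hn, hn', rfl⟩ := f
    refine ⟨g • x, g • y, n, hn, by rw [hd]; exact hn', ?_⟩
    funext s
    have e1 := hd g (g⁻¹ • s) x
    have e2 := hd g (g⁻¹ • s) y
    rw [smul_inv_smul] at e1 e2
    show pt d x y n (g⁻¹ • s) = _
    unfold pt
    rw [hd, e1, e2]⟩
  one_smul f := Subtype.ext (by
    funext s
    show f.1 ((1 : G)⁻¹ • s) = f.1 s
    rw [inv_one, one_smul])
  mul_smul g k f := Subtype.ext (by
    funext s
    show f.1 ((g * k)⁻¹ • s) = f.1 (k⁻¹ • g⁻¹ • s)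
    rw [mul_inv_rev, mul_smul])

end act

open Pool.Agent.Y110.FJ (ClosedE)

/-- **groups with an integral hyperbolic length function**: if for each `n` there is a homomorphism
to a group in the class which does not kill the nontrivial elements that move `o` by at most `n` -/
theorem length_mem {C : ∀ (G : Type) [Group G], Prop} (hC : ClosedE C) {G S : Type} [Group G]
    [MulAction G S] {d : S → S → ℤ} (h : ZH d)
    (hd : ∀ (g : G) (x y : S), d (g • x) (g • y) = d x y) (o : S)
    (hP : ∀ n : ℕ, ∃ (P : Type) (_ : Group P) (f : G →* P), C P ∧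
      ∀ g : G, d o (g • o) ≤ n → f g = 1 → g = 1) : C G := by
  let _ := actV hd
  have : Nonempty S := ⟨o⟩
  refine Pool.Agent.N24.TR.tree_local (G := G) (V := Vt d) (T := TG d) hC (TG_tree h) ?_ ?_
  · intro g u v huv s
    exact huv (g⁻¹ • s)
  · intro v
    obtain ⟨P, _, f, hP, hf⟩ := hP (2 * v.1 o).toNat
    refine ⟨P, _, f, hP, fun g hg hfg => hf g ?_ hfg⟩
    have h1 : v.1 (g⁻¹ • o) = v.1 o := congrFun (congrArg Subtype.val hg) o
    have h2 := le_add h v o (g⁻¹ • o)
    rw [h1] at h2
    have h3 := hd g o (g⁻¹ • o)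
    rw [smul_inv_smul] at h3
    have h4 := h.symm o (g • o)
    omega

end Run7.h909.GT
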