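import Pool.Agent.Run7.h909.GT.Chis

/-!
# Degree functions and the tree of `GL_2`

Owner helper909.
-/

set_option autoImplicit false

open Pool.Agent.Y110.FJ (ClosedE)

namespace Run7.h909.GT

/-- a degree function: minus a valuation with integral values -/
structure IsDeg {R : Type} [CommRing R] (deg : R → WithBot ℤ) : Prop where
  bot : ∀ x, deg x = ⊥ ↔ x = 0
  mul : ∀ x y, deg (x * y) = deg x + deg y
  add : ∀ x y, deg (x + y) ≤ max (deg x) (deg y)

section deg

variable {R : Type} [CommRing R] {deg : R → WithBot ℤ}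

namespace IsDeg

theorem one (h : IsDeg deg) [Nontrivial R] : deg 1 = 0 := by
  have h1 := h.mul 1 1
  rw [mul_one] at h1
  have h2 : deg 1 ≠ ⊥ := fun e => one_ne_zero ((h.bot 1).1 e)
  obtain ⟨n, hn⟩ := WithBot.ne_bot_iff_exists.1 h2
  rw [← hn, ← WithBot.coe_add, WithBot.coe_inj] at h1
  rw [← hn]
  have : n = 0 := by omega
  rw [this]
  rfl

theorem neg_one (h : IsDeg deg) [Nontrivial R] : deg (-1) = 0 := by
  have h1 := h.mul (-1) (-1)
  rw [neg_mul_neg, mul_one, h.one] at h1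
  have h2 : deg (-1) ≠ ⊥ := fun e => (neg_ne_zero.2 one_ne_zero) ((h.bot (-1 : R)).1 e)
  obtain ⟨n, hn⟩ := WithBot.ne_bot_iff_exists.1 h2
  rw [← hn, ← WithBot.coe_add, ← WithBot.coe_zero, WithBot.coe_inj] at h1
  rw [← hn]
  have : n = 0 := by omega
  rw [this]
  rfl

theorem neg (h : IsDeg deg) [Nontrivial R] (x : R) : deg (-x) = deg x := by
  rw [← neg_one_mul, h.mul, h.neg_one, zero_add]

theorem sub (h : IsDeg deg) [Nontrivial R] (x y : R) : deg (x - y) ≤ max (deg x) (deg y) := by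
  rw [sub_eq_add_neg]
  have h1 := h.add x (-y)
  rwa [h.neg] at h1

theorem unit (h : IsDeg deg) [Nontrivial R] {x : R} (hx : IsUnit x) : deg x ≠ ⊥ := fun e =>
  hx.ne_zero ((h.bot x).1 e)

end IsDeg

/-- the determinant of two columns -/
def cw (g k : GL (Fin 2) R) (p : Fin 2 × Fin 2) : R :=
  g 0 p.1 * k 1 p.2 - g 1 p.1 * k 0 p.2

/-- the largest degree -/
def W (deg : R → WithBot ℤ) (g k : GL (Fin 2) R) : WithBot ℤ :=
  Finset.univ.sup fun p => deg (cw g k p)

theorem le_W (g k : GL (Fin 2) R) (p : Fin 2 × Fin 2) : deg (cw g k p) ≤ W deg g k :=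
  Finset.le_sup (f := fun p => deg (cw g k p)) (Finset.mem_univ p)

theorem W_ex (g k : GL (Fin 2) R) : ∃ p, W deg g k = deg (cw g k p) := by
  obtain ⟨p, -, hp⟩ := Finset.exists_mem_eq_sup Finset.univ ⟨(0, 0), Finset.mem_univ _⟩
    (fun p => deg (cw g k p))
  exact ⟨p, hp⟩

theorem W_four (h : IsDeg deg) [Nontrivial R] (a b c e : GL (Fin 2) R) :
    W deg a b + W deg c e ≤ max (W deg a c + W deg b e) (W deg a e + W deg b c) := by
  obtain ⟨p, hp⟩ := W_ex (deg := deg) a b
  obtain ⟨q, hq⟩ := W_ex (deg := deg) c e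
  rw [hp, hq, ← h.mul]
  have h1 : cw a b p * cw c e q = cw a c (p.1, q.1) * cw b e (p.2, q.2) -
      cw a e (p.1, q.2) * cw b c (p.2, q.1) := by
    unfold cw
    ring
  rw [h1]
  refine (h.sub _ _).trans (max_le_max ?_ ?_)
  · rw [h.mul]
    exact add_le_add (le_W _ _ _) (le_W _ _ _)
  · rw [h.mul]
    exact add_le_add (le_W _ _ _) (le_W _ _ _)

theorem W_symm (h : IsDeg deg) [Nontrivial R] (g k : GL (Fin 2) R) : W deg g k = W deg k g := by
  have key : ∀ g k : GL (Fin 2) R, W deg g k ≤ W deg k g := by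
    intro g k
    refine Finset.sup_le fun p _ => ?_
    have h1 : cw g k p = - cw k g (p.2, p.1) := by
      unfold cw
      ring
    rw [h1, h.neg]
    exact le_W _ _ _
  exact le_antisymm (key g k) (key k g)

theorem det_eq (g : GL (Fin 2) R) : (g : Matrix (Fin 2) (Fin 2) R).det = cw g g (0, 1) := by
  rw [Matrix.det_fin_two]
  unfold cw
  ring

theorem W_self (h : IsDeg deg) [Nontrivial R] (g : GL (Fin 2) R) :
    W deg g g = deg (g : Matrix (Fin 2) (Fin 2) R).det := by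
  apply le_antisymm
  · refine Finset.sup_le fun p _ => ?_
    obtain ⟨i, j⟩ := p
    fin_cases i <;> fin_cases j
    · have h1 : cw g g (0, 0) = 0 := by unfold cw; ring
      show deg (cw g g (0, 0)) ≤ _
      rw [h1, (h.bot 0).2 rfl]
      exact bot_le
    · rw [det_eq]
      exact le_rfl
    · have h1 : cw g g (1, 0) = - cw g g (0, 1) := by unfold cw; ring
      show deg (cw g g (1, 0)) ≤ _
      rw [h1, h.neg, det_eq]
    · have h1 : cw g g (1, 1) = 0 := by unfold cw; ring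
      show deg (cw g g (1, 1)) ≤ _
      rw [h1, (h.bot 0).2 rfl]
      exact bot_le
  · rw [det_eq]
    exact le_W _ _ _

theorem cw_mul (a g k : GL (Fin 2) R) (p : Fin 2 × Fin 2) :
    cw (a * g) (a * k) p = (a : Matrix (Fin 2) (Fin 2) R).det * cw g k p := by
  have e1 : ∀ (g : GL (Fin 2) R) i j, (a * g : GL (Fin 2) R) i j = a i 0 * g 0 j + a i 1 * g 1 j := by
    intro g i j
    show ((a * g : GL (Fin 2) R) : Matrix (Fin 2) (Fin 2) R) i j = _
    rw [Units.val_mul, Matrix.mul_apply, Fin.sum_univ_two]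
  rw [Matrix.det_fin_two]
  unfold cw
  rw [e1, e1, e1, e1]
  ring

theorem W_mul (h : IsDeg deg) (a g k : GL (Fin 2) R) :
    W deg (a * g) (a * k) = deg (a : Matrix (Fin 2) (Fin 2) R).det + W deg g k := by
  apply le_antisymm
  · refine Finset.sup_le fun p _ => ?_
    rw [cw_mul, h.mul]
    exact add_le_add le_rfl (le_W _ _ _)
  · obtain ⟨p, hp⟩ := W_ex (deg := deg) g k
    rw [hp, ← h.mul, ← cw_mul]
    exact le_W _ _ _

theorem isUnit_det (g : GL (Fin 2) R) : IsUnit (g : Matrix (Fin 2) (Fin 2) R).det :=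
  (Matrix.isUnit_iff_isUnit_det _).1 g.isUnit

theorem W_ne (h : IsDeg deg) [Nontrivial R] (g k : GL (Fin 2) R) : W deg g k ≠ ⊥ := by
  intro e
  have h2 := W_four h g g k k
  rw [e, W_self h, W_self h, WithBot.bot_add, max_self] at h2
  rw [le_bot_iff, WithBot.add_eq_bot] at h2
  rcases h2 with h2 | h2
  · exact h.unit (isUnit_det g) h2
  · exact h.unit (isUnit_det k) h2

/-- the integer -/
def w (deg : R → WithBot ℤ) (g k : GL (Fin 2) R) : ℤ := (W deg g k).unbotD 0

theorem coe_w (h : IsDeg deg) [Nontrivial R] (g k : GL (Fin 2) R) :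
    ((w deg g k : ℤ) : WithBot ℤ) = W deg g k := by
  obtain ⟨n, hn⟩ := WithBot.ne_bot_iff_exists.1 (W_ne h g k)
  unfold w
  rw [← hn]
  rfl

/-- the distance -/
def dd (deg : R → WithBot ℤ) (g k : GL (Fin 2) R) : ℤ := 2 * w deg g k - w deg g g - w deg k k

theorem dd_zh (h : IsDeg deg) [Nontrivial R] : ZH (dd deg) where
  self g := by
    unfold dd
    ring
  symm g k := by
    have h1 : w deg g k = w deg k g := by
      unfold w
      rw [W_symm h]
    unfold dd
    rw [h1]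
    ring
  four a b c e := by
    have h1 := W_four h a b c e
    simp only [← coe_w h, ← WithBot.coe_add] at h1
    rw [← WithBot.coe_max, WithBot.coe_le_coe] at h1
    unfold dd
    omega
  even a b c := by
    unfold dd
    omega

theorem dd_mul (h : IsDeg deg) [Nontrivial R] (a g k : GL (Fin 2) R) :
    dd deg (a * g) (a * k) = dd deg g k := by
  have key : ∀ g k : GL (Fin 2) R, w deg (a * g) (a * k) = w deg a a + w deg g k := by
    intro g k
    rw [← WithBot.coe_inj, WithBot.coe_add, coe_w h, coe_w h, coe_w h, W_mul h, W_self h]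
  unfold dd
  rw [key, key, key]
  ring

theorem le_w_one (h : IsDeg deg) [Nontrivial R] (g : GL (Fin 2) R) (i j : Fin 2) :
    deg (g i j) ≤ w deg 1 g := by
  rw [coe_w h]
  fin_cases i
  · have h1 := le_W (deg := deg) 1 g (1, j)
    have h2 : cw 1 g (1, j) = - g 0 j := by
      simp [cw]
    rw [h2, h.neg] at h1
    exact h1
  · have h1 := le_W (deg := deg) 1 g (0, j)
    have h2 : cw 1 g (0, j) = g 1 j := by
      simp [cw]
    rw [h2] at h1
    exact h1

theorem inv_entry (g : GL (Fin 2) R) (i j : Fin 2) : ∃ i' j' : Fin 2,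
    (g : Matrix (Fin 2) (Fin 2) R).det * (g⁻¹ : GL (Fin 2) R) i j = g i' j' ∨
    (g : Matrix (Fin 2) (Fin 2) R).det * (g⁻¹ : GL (Fin 2) R) i j = - g i' j' := by
  have h1 : (g : Matrix (Fin 2) (Fin 2) R).det • ((g⁻¹ : GL (Fin 2) R) : Matrix (Fin 2) (Fin 2) R) =
      (g : Matrix (Fin 2) (Fin 2) R).adjugate := by
    have h2 : (g : Matrix (Fin 2) (Fin 2) R).adjugate * ((g : Matrix (Fin 2) (Fin 2) R) *
        ((g⁻¹ : GL (Fin 2) R) : Matrix (Fin 2) (Fin 2) R)) =
        (g : Matrix (Fin 2) (Fin 2) R).adjugate := by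
      rw [Units.mul_inv, mul_one]
    rw [← mul_assoc, Matrix.adjugate_mul, Matrix.smul_mul, one_mul] at h2
    exact h2
  have h2 := congrFun (congrFun h1 i) j
  rw [Matrix.smul_apply, smul_eq_mul, Matrix.adjugate_fin_two] at h2
  fin_cases i <;> fin_cases j
  · exact ⟨1, 1, Or.inl h2⟩
  · exact ⟨0, 1, Or.inr h2⟩
  · exact ⟨1, 0, Or.inr h2⟩
  · exact ⟨0, 0, Or.inl h2⟩

theorem le_dd (h : IsDeg deg) [Nontrivial R] (g : GL (Fin 2) R) (i j k l : Fin 2) :
    deg (g i j) + deg ((g⁻¹ : GL (Fin 2) R) k l) ≤ dd deg 1 g := by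
  have h1 := le_w_one h g i j
  have h0 : w deg (1 : GL (Fin 2) R) 1 = 0 := by
    rw [← WithBot.coe_inj, coe_w h, W_self h, Units.val_one, Matrix.det_one, h.one]
    rfl
  have h2 : ((w deg g g : ℤ) : WithBot ℤ) + deg ((g⁻¹ : GL (Fin 2) R) k l) ≤ w deg 1 g := by
    rw [coe_w h, W_self h, ← h.mul]
    obtain ⟨k', l', hk | hk⟩ := inv_entry g k l
    · rw [hk]
      exact le_w_one h g k' l'
    · rw [hk, h.neg]
      exact le_w_one h g k' l'
  have h3 : deg (g i j) + (((w deg g g : ℤ) : WithBot ℤ) + deg ((g⁻¹ : GL (Fin 2) R) k l)) ≤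
      (w deg 1 g : WithBot ℤ) + w deg 1 g := add_le_add h1 h2
  by_cases hb1 : deg (g i j) = ⊥
  · rw [hb1, WithBot.bot_add]
    exact bot_le
  by_cases hb2 : deg ((g⁻¹ : GL (Fin 2) R) k l) = ⊥
  · rw [hb2, WithBot.add_bot]
    exact bot_le
  obtain ⟨m, hm⟩ := WithBot.ne_bot_iff_exists.1 hb1
  obtain ⟨n, hn⟩ := WithBot.ne_bot_iff_exists.1 hb2
  rw [← hm, ← hn] at h3 ⊢
  rw [← WithBot.coe_add, ← WithBot.coe_add, ← WithBot.coe_add, WithBot.coe_le_coe] at h3
  rw [← WithBot.coe_add, WithBot.coe_le_coe]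
  unfold dd
  omega

variable {C : ∀ (G : Type) [Group G], Prop}

/-- **groups of matrices over rings with a degree function** -/
theorem gl2_rep (hC : ClosedE C) (h : IsDeg deg) [Nontrivial R] {G : Type} [Group G]
    (ρ : G →* GL (Fin 2) R)
    (hP : ∀ n : ℕ, ∃ (P : Type) (_ : Group P) (f : G →* P), C P ∧ ∀ g : G,
      (∀ i j k l, deg (ρ g i j) + deg (ρ g⁻¹ k l) ≤ n) → f g = 1 → g = 1) : C G := by
  let _ : MulAction G (GL (Fin 2) R) := MulAction.compHom _ ρ
  have hs : ∀ (g : G) (x : GL (Fin 2) R), g • x = ρ g * x := fun _ _ => rfl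
  refine length_mem hC (G := G) (S := GL (Fin 2) R) (dd_zh h) ?_ 1 ?_
  · intro g x y
    rw [hs, hs, dd_mul h]
  · intro n
    obtain ⟨P, _, f, hCP, hf⟩ := hP n
    refine ⟨P, _, f, hCP, fun g hg hfg => hf g (fun i j k l => ?_) hfg⟩
    rw [hs, mul_one] at hg
    rw [map_inv]
    refine (le_dd h (ρ g) i j k l).trans ?_
    exact_mod_cast hg

end deg

end Run7.h909.GT
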